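import Pool.Agent.Helper14.SK.Growth

/-!
Longest words avoiding strongly `k`-abelian `n`-th powers: the growth in `k`, for all alphabet
sizes `m` and all exponents `n`.

The largest length `L` is `n - 1` for `m = 1`, it is `3` for `m = n = 2`, and in all other cases it
grows doubly exponentially in `k`.

Lower bound for `n ≥ 3`. A pattern of length `21` (a cell) with a few letters that can be chosen
freely is repeated `k / 21` times, with Thue-Morse letters and marks; the words obtained form a code
in which no proper prefix of a word is a suffix of a word, and no `n`-th power lies inside two
consecutive words. Put such words in a sequence in which every piece contains some word of the code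
at least once and at most `n - 2` times; closing a factor up cyclically adds at most one occurrence.
Lower bound for `n = 2`. A substitution with free choices that preserves square-freeness (cells of
length `22` over three letters) gives two families of code words, `A c` and `B c`, indexed by the
same symbols `c`. Replace each symbol `c` of a word of Zimin type by `A c`, `B c`. Every piece with
at least two code words contains some `A c` and some `B d` an odd number of times, and closing up
cyclically can repair at most one of them; shorter factors are treated by the fact that `k`-abelian
equivalent words of length at most `2 k - 2` are equal.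
-/

namespace Pool.Agent.Results.MP_449ba1_co.GrowthInK

open Pool.Agent.Helper18.SK Pool.Agent.Helper14.SK

/-- Growth in `k` of the largest length `L` of a word over `m` letters that avoids strongly
`k`-abelian `n`-th powers, for all `m` and `n`. -/
theorem result (m k n : ℕ) (hm : 1 ≤ m) (hk : 1 ≤ k) (hn : 2 ≤ n) :
    ∃ L : ℕ, IsGreatest {ℓ | ∃ w : List (Fin m), w.length = ℓ ∧ Avoids k n w} L ∧
      (m = 1 → L + 1 = n) ∧ (m = 2 → n = 2 → L = 3) ∧
      (3 ≤ m → n = 2 → 44 * (k / 33) * 2 ^ (2 ^ (k / 33 - 1)) ≤ L + 44 * (k / 33)) ∧
      (2 ≤ m → 3 ≤ n → 21 * (k / 21) * (n - 1) ^ (m ^ (k / 21)) ≤ L + 21 * (k / 21)) :=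
  main4 m k n hm hk hn

end Pool.Agent.Results.MP_449ba1_co.GrowthInK
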