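import Pool.Agent.Helper18.SK.Final

/-!
Longest words avoiding strongly `k`-abelian `n`-th powers over an alphabet with `m` letters.

The largest length `L` is finite and, with `B = m ^ k - m ^ (k - 1) + 1` (the rank of the cycle space
of the de Bruijn graph on the words of length `k - 1`), lies between a constant times `n ^ B` and a
constant times `n ^ B` (constants depending on `m` and `k` only); for `k = 1` it is `n ^ m - 1`.

Upper bound. Positions of a long word are classified by the surrounding window of length `2 k - 2`
and the numbers modulo `n` of the factors of length `k` seen before; the latter are determined by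
the `B` edges outside a spanning tree. Many positions in one class give closed walks in the
de Bruijn graph with all multiplicities divisible by `n`; Euler's theorem gives closed walks with
the multiplicities divided by `n`, and these are put together to a word `z` such that a factor is
`k`-abelian equivalent to `z ^ n`.
Lower bound. Starting from a Hamiltonian cycle (de Bruijn word) one adds the other `B - 1` edges one
after the other, each `n - k` times between copies of the previous walk; every piece of the
resulting walk has an edge of multiplicity between `1` and `n - k`, and closing up a factor
cyclically adds at most `k - 1` to a multiplicity.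
-/

namespace Pool.Agent.Results.MP_449ba1_co.GrowthInN

open Pool.Agent.Helper18.SK

/-- The largest length `L` of a word over `m` letters that avoids strongly `k`-abelian `n`-th powers:
existence, upper bound, lower bound for `n > k`, and the exact value for `k = 1`. -/
theorem result (m k n : ℕ) (hm : 1 ≤ m) (hk : 1 ≤ k) (hn : 2 ≤ n) :
    ∃ L : ℕ, IsGreatest {ℓ | ∃ w : List (Fin m), w.length = ℓ ∧ Avoids k n w} L ∧
      L + 3 ≤ 2 * k + k ^ 2 * m ^ (2 * k - 2) * n ^ (m ^ k - m ^ (k - 1) + 1) ∧
      (k + 1 ≤ n → (m ^ (k - 1) * (n - k) + 1) * (n - k + 1) ^ (m ^ k - m ^ (k - 1)) + k
        ≤ L + 2) ∧
      (k = 1 → L + 1 = n ^ m) :=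
  main m k n hm hk hn

end Pool.Agent.Results.MP_449ba1_co.GrowthInN
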