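import Pool.Agent.Helper14.ER.Order

/-!
The order of `log L` for the longest words avoiding strongly `k`-abelian `n`-th powers.

Let `A (n, k)` be the number of words of length `k` over `m` letters without `n`-th powers. Then
`log L` is between `c A (n, k) log n` and `C A (n, k) log n`, where `c` and `C` depend on `m` only.

Upper bound: all factors of length `k` are free of `n`-th powers; positions are classified by the
surrounding window and the numbers modulo `n` of these factors seen before. Lower bound: a long
word is a product of blocks `T y`, where `y` runs through words of length `k` and `T` is a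
separator made of a Thue-Morse word and a few letters. The words `y` have the form `V y' V'` with
fixed short `V` and `V'`; they are such that `T y T` has no `n`-th power, `T` is not inside `y`,
and `y` has no border. Each block is seen by the factor `y` of length `k` and nowhere else. A
positive share of all power-free words `y'` is admitted, since the number of power-free words
grows steadily and is almost multiplicative.
-/

namespace Pool.Agent.Results.MP_449ba1_co.LogOrder

open Pool.Agent.Helper18.SK Pool.Agent.Helper14.SK Pool.Agent.Helper14.ER

/-- The order of `log L` for the largest length `L` of a word over `m` letters that avoids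
strongly `k`-abelian `n`-th powers. -/
theorem result (m : ℕ) (hm : 2 ≤ m) : ∃ c : ℝ, 0 < c ∧ ∀ n : ℕ, 3 ≤ n → ¬ (m = 2 ∧ n = 3) →
    ∃ β : ℝ, (m : ℝ) - 2 / (m : ℝ) ^ (n - 2) ≤ β ∧ β ≤ m ∧ ∀ k : ℕ, 1 ≤ k →
      β ^ k ≤ (powerFree m n k : ℝ) ∧ (powerFree m n k : ℝ) ≤ 10 * β ^ k ∧
      ∃ L : ℕ, IsGreatest {ℓ | ∃ w : List (Fin m), w.length = ℓ ∧ Avoids k n w} L ∧
        c * powerFree m n k * Real.log n ≤ Real.log L ∧
        Real.log L ≤ (6 + 3 * Real.log m) * powerFree m n k * Real.log n := by
  obtain ⟨c, hc, h⟩ := log_order m hm
  refine ⟨c, hc, fun n hn hmn => ?_⟩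
  obtain ⟨⟨β, h1, h2, h3⟩, h4⟩ := h n (by omega)
  exact ⟨β, h1, h2, fun k hk => ⟨(h3 k).1, (h3 k).2, h4 k hk⟩⟩

end Pool.Agent.Results.MP_449ba1_co.LogOrder
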