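import Pool.Agent.Helper14.SK.TwoF

/-!
Longest words avoiding strongly `2`-abelian `n`-th powers, over an alphabet with `m` letters.

With `B = m ^ 2 - m + 1` the largest length `L n` satisfies, for all `n ≥ 2`,
`m n ^ (B - 1) ≤ m n ^ B - L n ≤ (B + 1) m n ^ (B - 1)`; so it is asymptotic to `m n ^ B`.

Upper bound. A word `u` is a strongly `2`-abelian `n`-th power if (and only if) every pair of letters
occurs in the word `u`, closed up cyclically, a number of times divisible by `n` (Euler's theorem).
Call the last letter and the numbers modulo `n` of the pairs seen so far the state; up to a spanning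
tree there are `m n ^ B` states. If `w` avoids powers then its states are distinct, and the state
which would follow the state at a time `t` if the letter read at a time `s ≤ t` were read once more
is never the state at the time `s`. So along an orbit of length `n` obtained by reading the same
letter again and again the times of visit would increase cyclically; hence every orbit has a state
that is not visited, which leaves at most `m (n - 1) n ^ (B - 1)` states.
-/

namespace Pool.Agent.Results.MP_449ba1_co.SharpForPairs

open Pool.Agent.Helper18.SK Pool.Agent.Helper14.SK Filter Topology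

/-- The largest length `L n` of a word over `m` letters that avoids strongly `2`-abelian `n`-th
powers, up to the second order term. -/
theorem result (m : ℕ) (hm : 1 ≤ m) :
    ∃ L : ℕ → ℕ, (∀ n, 2 ≤ n →
      IsGreatest {ℓ | ∃ w : List (Fin m), w.length = ℓ ∧ Avoids 2 n w} (L n) ∧
      L n + m * n ^ (m ^ 2 - m) ≤ m * n ^ (m ^ 2 - m + 1) ∧
      m * n ^ (m ^ 2 - m + 1) ≤ L n + (m ^ 2 - m + 2) * m * n ^ (m ^ 2 - m)) ∧
    Tendsto (fun n : ℕ => (L n : ℝ) / (m * (n : ℝ) ^ (m ^ 2 - m + 1))) atTop (𝓝 1) :=
  main3 m hm

end Pool.Agent.Results.MP_449ba1_co.SharpForPairs
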